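import Mathlib

/-!
# Lists of size three do not suffice for colour degree two

An explicit graph on 164 vertices with lists of three colours (123 colours in all) in which every
colour degree is at most two, and which has no list colouring. Vertices are the clauses of an
unsatisfiable 3-CNF formula in which every literal occurs exactly twice and in which two clauses
never have both a common literal and a pair of complementary literals; colours are the variables,
and two vertices are adjacent when their clauses contain complementary literals.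
-/

namespace Pool.Agent.Results.MP_69e632_co.ColourDegreeTwo

/-- Every colour degree of `(G, L)` is at most `d`: for each vertex `v` and each colour `α` in its
list, at most `d` neighbours of `v` have `α` in their lists. -/
def ColourDegreeLE {V : Type} (G : SimpleGraph V) (L : V → Finset ℕ) (d : ℕ) : Prop :=
  ∀ v, ∀ α ∈ L v, {w | G.Adj v w ∧ α ∈ L w}.ncard ≤ d

/-- `G` has a proper colouring from the lists `L`. -/
def ListColourable {V : Type} (G : SimpleGraph V) (L : V → Finset ℕ) : Prop :=
  ∃ c : V → ℕ, (∀ v, c v ∈ L v) ∧ ∀ v w, G.Adj v w → c v ≠ c w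

/-- Lists of size at least `k` suffice for colour degree at most `d`, for all finite graphs. -/
def Suffices (d k : ℕ) : Prop :=
  ∀ (n : ℕ) (G : SimpleGraph (Fin n)) (L : Fin n → Finset ℕ),
    ColourDegreeLE G L d → (∀ v, k ≤ (L v).card) → ListColourable G L

/-- The formula: byte `3 * v + k` is literal `k` of clause `v`; literal `2 * α` is the variable
`α`, literal `2 * α + 1` is its negation. -/
def code : ℕ := 0xc3e9f0f4f1ebbae8f4eef2ecf1bae7e6f5c3eaeff3eef2ebe9e6eae8ede7f3efedecf0f5c5d9e0e4e1dbc0d8e4dee2dce1c0d7d6e5c5dadfe3dee2dbd9d6dad8ddd7e3dfdddce0e5bec9d0d4d1cbbdc8d4ced2ccd1bdc7c6d5becacfd3ced2cbc9c6cac8cdc7d3cfcdccd0d5c4bc05c1bbbcbf05bbc2bfc4c203c187adb4b8b5af7eacb8b2b6b0b57eabaab987aeb3b7b2b6afadaaaeacb1abb7b3b1b0b4b9899da4a8a59f849ca8a2a6a0a5849b9aa9899ea3a7a2a69f9d9a9e9ca19ba7a3a1a0a4a9828d9498958f818c9892969095818b8a99828e939792968f8d8a8e8c918b979391909499888004857f8083047f8683888603854b71787c797342707c767a7479426f6e7d4b72777b767a73716e7270756f7b777574787d4d61686c696348606c666a6469485f5e6d4d62676b666a63615e6260655f6b676564686d4651585c595345505c565a5459454f4e5d4652575b565a53514e5250554f5b575554585d4c44024943444701434a474c4a01490f353c403d370634403a3e383d063332410f363b3f3a3e373532363439333f3b39383c4111252c302d270c24302a2e282d0c23223111262b2f2a2e272522262429232f2b29282c310a151c201d170914201a1e181d091312210a161b1f1a1e171512161419131f1b19181c211008020d07080b00070e0b100e000d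

/-- Literal `k` of clause `v`. -/
def L3 (v k : ℕ) : ℕ := (code >>> (8 * (3 * v + k))) % 256

/-- Value of a literal. -/
def litval (τ : ℕ → Bool) (l : ℕ) : Bool := cond (l % 2 == 0) (τ (l / 2)) (!τ (l / 2))

/-- Complementary literals. -/
def clash (a b : ℕ) : Bool := a / 2 == b / 2 && !(a == b)

/-- Adjacency test. -/
def adj (v w : ℕ) : Bool :=
  clash (L3 v 0) (L3 w 0) || clash (L3 v 0) (L3 w 1) || clash (L3 v 0) (L3 w 2) ||
  clash (L3 v 1) (L3 w 0) || clash (L3 v 1) (L3 w 1) || clash (L3 v 1) (L3 w 2) ||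
  clash (L3 v 2) (L3 w 0) || clash (L3 v 2) (L3 w 1) || clash (L3 v 2) (L3 w 2)

/-- Membership test for lists. -/
def has (w α : ℕ) : Bool := L3 w 0 / 2 == α || L3 w 1 / 2 == α || L3 w 2 / 2 == α

theorem r4_aux : ∀ x y a1 a2 a3 a4 a5 a6 a7 a8 : Bool,
    ((!a8 || a6 || a4) &&
    (!a4 || !a5 || !a7) &&
    (!a1 || !a4 || a2) &&
    (a3 || a1 || !a2) &&
    (!a3 || a7 || a5) &&
    (!a7 || !a5 || a3) &&
    (x || !a8 || a1) &&
    (!a1 || y || !a6) &&
    (a4 || a7 || a5) &&
    (a8 || a2 || y) &&
    (!a3 || !a6 || a8) &&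
    (a6 || !a2 || x) &&
    !(x || y)) = false := by
  decide +kernel

theorem r4 (x y a1 a2 a3 a4 a5 a6 a7 a8 : Bool)
    (h1 : (!a8 || a6 || a4) = true)
    (h2 : (!a4 || !a5 || !a7) = true)
    (h3 : (!a1 || !a4 || a2) = true)
    (h4 : (a3 || a1 || !a2) = true)
    (h5 : (!a3 || a7 || a5) = true)
    (h6 : (!a7 || !a5 || a3) = true)
    (h7 : (x || !a8 || a1) = true)
    (h8 : (!a1 || y || !a6) = true)
    (h9 : (a4 || a7 || a5) = true)
    (h10 : (a8 || a2 || y) = true)
    (h11 : (!a3 || !a6 || a8) = true)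
    (h12 : (a6 || !a2 || x) = true) :
    (x || y) = true := by
  have h := r4_aux x y a1 a2 a3 a4 a5 a6 a7 a8
  rw [h1, h2, h3, h4, h5, h6, h7, h8, h9, h10, h11, h12] at h
  revert h
  cases x <;> cases y <;> simp

theorem comp : ∀ p q s b1 b2 b3 b4 b5 b6 : Bool,
    (!b4 || p || b5) = true →
    (b6 || !b3 || b5) = true →
    (!b1 || q || !b3) = true →
    (b2 || !b1 || !b4) = true →
    (s || b2 || b6) = true →
    (b3 || !b2) = true →
    (!b6 || b4) = true →
    (!b5 || b1) = true →
    (p || q || s) = true := by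
  decide +kernel

theorem top : ∀ x y z : Bool, (x || x || y) = true → (!x || !x || y) = true →
    (!y || z || z) = true → (!y || !z || !z) = true → False := by
  decide

theorem unsat (τ : ℕ → Bool) (h : ∀ v, v < 164 →
    (litval τ (L3 v 0) || litval τ (L3 v 1) || litval τ (L3 v 2)) = true) : False := by
  have g00 := r4 (τ 5) (!τ 4) (τ 9) (τ 10) (τ 11) (τ 12) (τ 13) (τ 14) (τ 15) (τ 16)
    (h 5 (by decide))
    (h 6 (by decide))
    (h 7 (by decide))
    (h 8 (by decide))
    (h 9 (by decide))
    (h 10 (by decide))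
    (h 11 (by decide))
    (h 12 (by decide))
    (h 13 (by decide))
    (h 14 (by decide))
    (h 15 (by decide))
    (h 16 (by decide))
  have g01 := r4 (!τ 8) (τ 6) (τ 17) (τ 18) (τ 19) (τ 20) (τ 21) (τ 22) (τ 23) (τ 24)
    (h 17 (by decide))
    (h 18 (by decide))
    (h 19 (by decide))
    (h 20 (by decide))
    (h 21 (by decide))
    (h 22 (by decide))
    (h 23 (by decide))
    (h 24 (by decide))
    (h 25 (by decide))
    (h 26 (by decide))
    (h 27 (by decide))
    (h 28 (by decide))
  have g02 := r4 (!τ 7) (τ 3) (τ 25) (τ 26) (τ 27) (τ 28) (τ 29) (τ 30) (τ 31) (τ 32)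
    (h 29 (by decide))
    (h 30 (by decide))
    (h 31 (by decide))
    (h 32 (by decide))
    (h 33 (by decide))
    (h 34 (by decide))
    (h 35 (by decide))
    (h 36 (by decide))
    (h 37 (by decide))
    (h 38 (by decide))
    (h 39 (by decide))
    (h 40 (by decide))
  have t0 := comp (τ 0) (τ 0) (τ 1) (τ 3) (τ 4) (τ 5) (τ 6) (τ 7) (τ 8)
    (h 0 (by decide))
    (h 1 (by decide))
    (h 2 (by decide))
    (h 3 (by decide))
    (h 4 (by decide))
    g00 g01 g02
  have g10 := r4 (τ 35) (!τ 34) (τ 39) (τ 40) (τ 41) (τ 42) (τ 43) (τ 44) (τ 45) (τ 46)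
    (h 46 (by decide))
    (h 47 (by decide))
    (h 48 (by decide))
    (h 49 (by decide))
    (h 50 (by decide))
    (h 51 (by decide))
    (h 52 (by decide))
    (h 53 (by decide))
    (h 54 (by decide))
    (h 55 (by decide))
    (h 56 (by decide))
    (h 57 (by decide))
  have g11 := r4 (!τ 38) (τ 36) (τ 47) (τ 48) (τ 49) (τ 50) (τ 51) (τ 52) (τ 53) (τ 54)
    (h 58 (by decide))
    (h 59 (by decide))
    (h 60 (by decide))
    (h 61 (by decide))
    (h 62 (by decide))
    (h 63 (by decide))
    (h 64 (by decide))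
    (h 65 (by decide))
    (h 66 (by decide))
    (h 67 (by decide))
    (h 68 (by decide))
    (h 69 (by decide))
  have g12 := r4 (!τ 37) (τ 33) (τ 55) (τ 56) (τ 57) (τ 58) (τ 59) (τ 60) (τ 61) (τ 62)
    (h 70 (by decide))
    (h 71 (by decide))
    (h 72 (by decide))
    (h 73 (by decide))
    (h 74 (by decide))
    (h 75 (by decide))
    (h 76 (by decide))
    (h 77 (by decide))
    (h 78 (by decide))
    (h 79 (by decide))
    (h 80 (by decide))
    (h 81 (by decide))
  have t1 := comp (!τ 0) (!τ 0) (τ 1) (τ 33) (τ 34) (τ 35) (τ 36) (τ 37) (τ 38)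
    (h 41 (by decide))
    (h 42 (by decide))
    (h 43 (by decide))
    (h 44 (by decide))
    (h 45 (by decide))
    g10 g11 g12
  have g20 := r4 (τ 65) (!τ 64) (τ 69) (τ 70) (τ 71) (τ 72) (τ 73) (τ 74) (τ 75) (τ 76)
    (h 87 (by decide))
    (h 88 (by decide))
    (h 89 (by decide))
    (h 90 (by decide))
    (h 91 (by decide))
    (h 92 (by decide))
    (h 93 (by decide))
    (h 94 (by decide))
    (h 95 (by decide))
    (h 96 (by decide))
    (h 97 (by decide))
    (h 98 (by decide))
  have g21 := r4 (!τ 68) (τ 66) (τ 77) (τ 78) (τ 79) (τ 80) (τ 81) (τ 82) (τ 83) (τ 84)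
    (h 99 (by decide))
    (h 100 (by decide))
    (h 101 (by decide))
    (h 102 (by decide))
    (h 103 (by decide))
    (h 104 (by decide))
    (h 105 (by decide))
    (h 106 (by decide))
    (h 107 (by decide))
    (h 108 (by decide))
    (h 109 (by decide))
    (h 110 (by decide))
  have g22 := r4 (!τ 67) (τ 63) (τ 85) (τ 86) (τ 87) (τ 88) (τ 89) (τ 90) (τ 91) (τ 92)
    (h 111 (by decide))
    (h 112 (by decide))
    (h 113 (by decide))
    (h 114 (by decide))
    (h 115 (by decide))
    (h 116 (by decide))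
    (h 117 (by decide))
    (h 118 (by decide))
    (h 119 (by decide))
    (h 120 (by decide))
    (h 121 (by decide))
    (h 122 (by decide))
  have t2 := comp (!τ 1) (τ 2) (τ 2) (τ 63) (τ 64) (τ 65) (τ 66) (τ 67) (τ 68)
    (h 82 (by decide))
    (h 83 (by decide))
    (h 84 (by decide))
    (h 85 (by decide))
    (h 86 (by decide))
    g20 g21 g22
  have g30 := r4 (τ 95) (!τ 94) (τ 99) (τ 100) (τ 101) (τ 102) (τ 103) (τ 104) (τ 105) (τ 106)
    (h 128 (by decide))
    (h 129 (by decide))
    (h 130 (by decide))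
    (h 131 (by decide))
    (h 132 (by decide))
    (h 133 (by decide))
    (h 134 (by decide))
    (h 135 (by decide))
    (h 136 (by decide))
    (h 137 (by decide))
    (h 138 (by decide))
    (h 139 (by decide))
  have g31 := r4 (!τ 98) (τ 96) (τ 107) (τ 108) (τ 109) (τ 110) (τ 111) (τ 112) (τ 113) (τ 114)
    (h 140 (by decide))
    (h 141 (by decide))
    (h 142 (by decide))
    (h 143 (by decide))
    (h 144 (by decide))
    (h 145 (by decide))
    (h 146 (by decide))
    (h 147 (by decide))
    (h 148 (by decide))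
    (h 149 (by decide))
    (h 150 (by decide))
    (h 151 (by decide))
  have g32 := r4 (!τ 97) (τ 93) (τ 115) (τ 116) (τ 117) (τ 118) (τ 119) (τ 120) (τ 121) (τ 122)
    (h 152 (by decide))
    (h 153 (by decide))
    (h 154 (by decide))
    (h 155 (by decide))
    (h 156 (by decide))
    (h 157 (by decide))
    (h 158 (by decide))
    (h 159 (by decide))
    (h 160 (by decide))
    (h 161 (by decide))
    (h 162 (by decide))
    (h 163 (by decide))
  have t3 := comp (!τ 1) (!τ 2) (!τ 2) (τ 93) (τ 94) (τ 95) (τ 96) (τ 97) (τ 98)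
    (h 123 (by decide))
    (h 124 (by decide))
    (h 125 (by decide))
    (h 126 (by decide))
    (h 127 (by decide))
    g30 g31 g32
  exact top (τ 0) (τ 1) (τ 2) t0 t1 t2 t3

theorem distinct : ∀ v, v < 164 → L3 v 0 / 2 ≠ L3 v 1 / 2 ∧ L3 v 0 / 2 ≠ L3 v 2 / 2 ∧
    L3 v 1 / 2 ≠ L3 v 2 / 2 := by
  decide +kernel

theorem degs : ((List.range 164).all fun v => (List.range 3).all fun k =>
    decide (((List.range 164).filter fun w => has w (L3 v k / 2) && adj v w).length ≤ 2)) = true := by
  decide +kernel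

/-- The colour lists. -/
def lists (v : Fin 164) : Finset ℕ := {L3 v 0 / 2, L3 v 1 / 2, L3 v 2 / 2}

theorem clash_symm (a b : ℕ) : clash a b = clash b a := by
  unfold clash
  rw [show (a / 2 == b / 2) = (b / 2 == a / 2) from Bool.beq_comm .., 
    show (a == b) = (b == a) from Bool.beq_comm ..]

theorem clash_of (a b : ℕ) (h1 : a / 2 = b / 2) (h2 : a ≠ b) : clash a b = true := by
  simp [clash, h1, h2]

theorem of_clash (a b : ℕ) (h : clash a b = true) : a / 2 = b / 2 ∧ a ≠ b := by
  simpa [clash] using h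

theorem litval_even (τ : ℕ → Bool) (l : ℕ) (h : l % 2 = 0) : litval τ l = τ (l / 2) := by
  simp [litval, h]

theorem litval_odd (τ : ℕ → Bool) (l : ℕ) (h : l % 2 ≠ 0) : litval τ l = !τ (l / 2) := by
  have h' : l % 2 = 1 := by omega
  simp [litval, h']

theorem mem_lists (v : Fin 164) (α : ℕ) : α ∈ lists v ↔ ∃ k, k < 3 ∧ α = L3 v k / 2 := by
  constructor
  · intro h
    simp only [lists, Finset.mem_insert, Finset.mem_singleton] at h
    rcases h with h | h | h
    · exact ⟨0, by decide, h⟩
    · exact ⟨1, by decide, h⟩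
    · exact ⟨2, by decide, h⟩
  · rintro ⟨k, hk, rfl⟩
    simp only [lists, Finset.mem_insert, Finset.mem_singleton]
    interval_cases k <;> simp

theorem adj_iff (v w : ℕ) : adj v w = true ↔ ∃ i j, i < 3 ∧ j < 3 ∧ clash (L3 v i) (L3 w j) = true := by
  constructor
  · intro h
    simp only [adj, Bool.or_eq_true] at h
    rcases h with (((((((h | h) | h) | h) | h) | h) | h) | h) | h
    · exact ⟨0, 0, by decide, by decide, h⟩
    · exact ⟨0, 1, by decide, by decide, h⟩
    · exact ⟨0, 2, by decide, by decide, h⟩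
    · exact ⟨1, 0, by decide, by decide, h⟩
    · exact ⟨1, 1, by decide, by decide, h⟩
    · exact ⟨1, 2, by decide, by decide, h⟩
    · exact ⟨2, 0, by decide, by decide, h⟩
    · exact ⟨2, 1, by decide, by decide, h⟩
    · exact ⟨2, 2, by decide, by decide, h⟩
  · rintro ⟨i, j, hi, hj, h⟩
    simp only [adj, Bool.or_eq_true]
    interval_cases i <;> interval_cases j <;> simp only [h, true_or, or_true]

/-- The graph. -/
def graph : SimpleGraph (Fin 164) where
  Adj v w := adj v w = true
  symm := ⟨by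
    intro v w h
    rw [adj_iff] at h ⊢
    obtain ⟨i, j, hi, hj, h⟩ := h
    exact ⟨j, i, hj, hi, by rw [clash_symm]; exact h⟩⟩
  loopless := ⟨by
    intro v h
    rw [adj_iff] at h
    obtain ⟨i, j, hi, hj, h⟩ := h
    obtain ⟨h1, h2, h3⟩ := distinct v v.2
    obtain ⟨hc1, hc2⟩ := of_clash _ _ h
    interval_cases i <;> interval_cases j <;> first
      | exact hc2 rfl
      | exact h1 hc1
      | exact h2 hc1
      | exact h3 hc1
      | exact h1 hc1.symm
      | exact h2 hc1.symm
      | exact h3 hc1.symm⟩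

theorem not_colourable : ¬ ListColourable graph lists := by
  classical
  rintro ⟨c, hc, hp⟩
  obtain ⟨τ, hτ⟩ : ∃ τ : ℕ → Bool, ∀ α, τ α = true ↔
      ∃ (v : Fin 164) (k : ℕ), k < 3 ∧ c v = α ∧ L3 v k = 2 * α :=
    ⟨fun α => decide (∃ (v : Fin 164) (k : ℕ), k < 3 ∧ c v = α ∧ L3 v k = 2 * α),
      fun α => decide_eq_true_iff⟩
  apply unsat τ
  intro v hv
  obtain ⟨k, hk, hck⟩ := (mem_lists ⟨v, hv⟩ _).1 (hc ⟨v, hv⟩)
  have key : litval τ (L3 v k) = true := by
    by_cases hpar : L3 v k % 2 = 0
    · rw [litval_even τ _ hpar, hτ]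
      refine ⟨⟨v, hv⟩, k, hk, hck, ?_⟩
      show L3 v k = _
      omega
    · rw [litval_odd τ _ hpar]
      have hf : τ (L3 v k / 2) = false := by
        rw [Bool.eq_false_iff]
        intro ht
        obtain ⟨w, j, hj, hcw, hl⟩ := (hτ _).1 ht
        have hadj : graph.Adj ⟨v, hv⟩ w := by
          show adj v w = true
          rw [adj_iff]
          exact ⟨k, j, hk, hj, clash_of _ _ (by omega) (by omega)⟩
        exact hp _ _ hadj (hck.trans hcw.symm)
      rw [hf]
      rfl
  interval_cases k
  · rw [key]; rfl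
  · rw [key]; simp
  · rw [key]; simp

theorem card_lists (v : Fin 164) : (lists v).card = 3 := by
  obtain ⟨h1, h2, h3⟩ := distinct v v.2
  rw [lists, Finset.card_eq_three]
  exact ⟨_, _, _, h1, h2, h3, rfl⟩

theorem colourDegree : ColourDegreeLE graph lists 2 := by
  classical
  intro v α hα
  obtain ⟨k, hk, rfl⟩ := (mem_lists v _).1 hα
  have hd := List.all_eq_true.1 (List.all_eq_true.1 degs v (List.mem_range.2 v.2)) k
    (List.mem_range.2 hk)
  have hd' := of_decide_eq_true hd
  set l := (List.range 164).filter fun w => has w (L3 v k / 2) && adj v w with hl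
  have hsub : (fun w : Fin 164 => (w : ℕ)) '' {w | graph.Adj v w ∧ L3 v k / 2 ∈ lists w} ⊆
      (l.toFinset : Set ℕ) := by
    rintro _ ⟨w, ⟨hw1, hw2⟩, rfl⟩
    have hw1' : adj v w = true := hw1
    obtain ⟨j, hj, hj2⟩ := (mem_lists w _).1 hw2
    have hhas : has w (L3 v k / 2) = true := by
      rw [hj2]
      unfold has
      interval_cases j <;> simp
    rw [Finset.mem_coe, List.mem_toFinset, hl, List.mem_filter, List.mem_range]
    exact ⟨w.2, by rw [hhas, hw1']; rfl⟩
  calc {w | graph.Adj v w ∧ L3 v k / 2 ∈ lists w}.ncard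
      = ((fun w : Fin 164 => (w : ℕ)) '' {w | graph.Adj v w ∧ L3 v k / 2 ∈ lists w}).ncard :=
        (Set.ncard_image_of_injective _ Fin.val_injective).symm
    _ ≤ (l.toFinset : Set ℕ).ncard := Set.ncard_le_ncard hsub (Finset.finite_toSet _)
    _ = l.toFinset.card := Set.ncard_coe_finset _
    _ ≤ l.length := List.toFinset_card_le _
    _ ≤ 2 := hd'

/-- Lists of size three do not suffice for colour degree two: `f(2) ≥ 4`. -/
theorem result : ∀ k, Suffices 2 k → 4 ≤ k := by
  intro k hk
  by_contra hlt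
  exact not_colourable (hk 164 graph lists colourDegree fun v => by rw [card_lists]; omega)

end Pool.Agent.Results.MP_69e632_co.ColourDegreeTwo
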